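import Pool.Agent.Helper31.MHS.Goals2
import Pool.Agent.Helper64.MH.PRM

/-!
# Packet MHS-PRW: the parameters for large `n` (adapted from `Helper64/MH/PRM.lean`)
-/

set_option autoImplicit false

namespace Pool.Agent.Helper39.MHS

open Pool.Agent.Helper65.LinSpace Pool.Agent.Helper78.Mpc Pool.Agent.Helper28.Ram Finset Filter
open Pool.Agent.Helper65.OH (kap)
open Pool.Agent.Helper28.Long (ZL)
open Pool.Agent.Helper65.RT (qT CT LSM)
open Pool.Agent.Helper20.MH
open Pool.Agent.Helper31.MHS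
open Pool.Agent.Helper64.MH

theorem gw_ne {n D K S b c R E G d Z : ℕ} (h1 : 0 < c) (h2 : 0 < E) (h3 : 0 < G) (hK : 0 < K)
    (hD : 0 < D) (h5 : S + Z ≤ ZL n) (h6 : 1 + R ≤ G * E) (h7 : (3 * c) ^ D ≤ 4 * (n + 1))
    (h8 : K * (3 * c) ^ D ≤ (G * E - (1 + R)) * (c * K))
    (h9 : G * ((S + 1 + (b + 1) * (K * D) + kap n + c * (K * (S + 2))) * E) +
      E * (S + 1 + (b + 1) * (K * D) + kap n + K * (3 * c) ^ D * (S + 2)) ≤ 4 * qT n)
    (h10 : d * (G + 2) ≤ 4 * qT n) (h11 : (d + 1) * ((b + 1) * (K * D) + 1) ≤ 4 * qT n)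
    (h12 : (d + 1) * (((b + 1) * (K * D) + 1) * E) ≤ 4 * (n + 1)) :
    gw n D K S b c R E G d Z ≠ 0 := by
  have hcap : capPow (3 * c) D (4 * (n + 1)) = (3 * c) ^ D := by
    unfold capPow
    exact min_eq_left (by omega)
  unfold gw
  rw [hcap]
  simp only [lt01, le01, if_pos h1, if_pos h2, if_pos h3, if_pos hK, if_pos hD, if_pos h5,
    if_pos h6, if_pos h7, if_pos h8, if_pos h9, if_pos h10, if_pos h11, if_pos h12]
  norm_num

theorem prw : PRW_stmt := by
  intro D K C hD hK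
  obtain ⟨e, rfl⟩ : ∃ e, D = e + 1 := ⟨D - 1, by omega⟩
  obtain ⟨C1, hC1d⟩ : ∃ C1 : ℝ, C1 = |C| + 1 := ⟨_, rfl⟩
  have hC1 : 1 ≤ C1 := by
    rw [hC1d]
    linarith [abs_nonneg C]
  have hCC1 : C ≤ C1 := by
    rw [hC1d]
    linarith [le_abs_self C]
  obtain ⟨c1, hc1d⟩ : ∃ c1 : ℝ, c1 = 4 + 3 ^ (e + 1) := ⟨_, rfl⟩
  obtain ⟨th, hth⟩ : ∃ th : ℝ, th = 3 ^ (e + 1) := ⟨_, rfl⟩
  have hth1 : 1 ≤ th := by
    rw [hth]
    exact one_le_pow₀ (by norm_num)
  have hc1 : 1 ≤ c1 := by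
    rw [hc1d, ← hth]
    linarith
  obtain ⟨kd, hkd⟩ : ∃ kd : ℝ, kd = K * ((e + 1 : ℕ) : ℝ) := ⟨_, rfl⟩
  have hK1 : (1 : ℝ) ≤ K := by exact_mod_cast hK
  have he1 : (1 : ℝ) ≤ ((e + 1 : ℕ) : ℝ) := by exact_mod_cast hD
  have hkd1 : 1 ≤ kd := by
    rw [hkd]
    exact one_le_mul_of_one_le_of_one_le hK1 he1
  have hKkd : (K : ℝ) ≤ kd := by
    rw [hkd]
    exact le_mul_of_one_le_right (by linarith) he1
  obtain ⟨kD, hkD⟩ : ∃ kD : ℝ, kD = kd * th := ⟨_, rfl⟩
  have hkD1 : 1 ≤ kD := by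
    rw [hkD]
    exact one_le_mul_of_one_le_of_one_le hkd1 hth1
  have hkdD : kd ≤ kD := by
    rw [hkD]
    exact le_mul_of_one_le_right (by linarith) hth1
  have hthD : th ≤ kD := by
    rw [hkD]
    exact le_mul_of_one_le_left (by linarith) hkd1
  obtain ⟨M, hM⟩ : ∃ M : ℝ, M = 200 * c1 ^ 2 * kD * C1 := ⟨_, rfl⟩
  obtain ⟨k, hk⟩ := exists_nat_gt (M ^ 2)
  filter_upwards [ev_ll_ge k, Pool.Agent.Helper28.Long.le_ZL (2 * C1)]
    with n hn hZ r s b a h1 h2 h3
  have hl : ((ll n : ℕ) : ℝ) = (Nat.log 2 n : ℝ) + 1 := by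
    unfold ll
    push_cast
    ring
  rw [← hl] at h1 h2 h3 hZ
  have hll1 : (1 : ℝ) ≤ (ll n : ℝ) := by exact_mod_cast ll_pos n
  have hb0 : (0 : ℝ) ≤ b := Nat.cast_nonneg b
  obtain ⟨L, hL⟩ : ∃ L : ℝ, L = (b : ℝ) + (ll n : ℝ) := ⟨_, rfl⟩
  rw [← hL] at h1 h2 h3
  have hLl : (ll n : ℝ) ≤ L := by linarith
  have hbL : (b : ℝ) + 1 ≤ L := by linarith
  have hL1 : 1 ≤ L := by linarith
  obtain ⟨N, hN⟩ : ∃ N : ℝ, N = (n : ℝ) + 1 := ⟨_, rfl⟩
  rw [← hN] at h1 h2 h3 hZ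
  have hN0 : 0 < N := by
    rw [hN]
    positivity
  obtain ⟨u, hud⟩ : ∃ u : ℝ, u = Real.sqrt L := ⟨_, rfl⟩
  have huL : u * u = L := by
    rw [hud]
    exact Real.mul_self_sqrt (by linarith)
  have hM1 : 200 ≤ M := by
    have a1 : (1 : ℝ) ≤ c1 ^ 2 := one_le_pow₀ hc1
    have a2 : (1 : ℝ) ≤ c1 ^ 2 * kD * C1 := one_le_mul_of_one_le_of_one_le
      (one_le_mul_of_one_le_of_one_le a1 hkD1) hC1
    rw [hM]
    nlinarith
  have huM : M ≤ u := by
    rw [hud]
    refine Real.le_sqrt_of_sq_le ?_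
    have : (k : ℝ) ≤ (ll n : ℝ) := by exact_mod_cast hn
    linarith
  have hu1 : 1 ≤ u := by linarith
  have hu0 : 0 < u := by linarith
  obtain ⟨t, ht⟩ : ∃ t : ℝ, t = (s : ℝ) + L := ⟨_, rfl⟩
  rw [← ht] at h1 h2
  have hs0 : (0 : ℝ) ≤ s := Nat.cast_nonneg s
  have htL : L ≤ t := by linarith
  have ht1 : 1 ≤ t := by linarith
  have hst : (s : ℝ) + 1 ≤ t := by linarith
  have hL2 : 2 ≤ L := by
    rw [← huL]
    nlinarith
  have hst2 : (s : ℝ) + 2 ≤ t := by linarith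
  -- bounds of the constants
  have cc : c1 ≤ c1 ^ 2 := le_self_pow₀ hc1 (by norm_num)
  have hc2 : (1 : ℝ) ≤ c1 ^ 2 := one_le_pow₀ hc1
  have b1 : C1 ≤ u := by
    have a1 : (1 : ℝ) ≤ 200 * c1 ^ 2 * kD := by
      have := one_le_mul_of_one_le_of_one_le hc2 hkD1
      linarith
    have := mul_le_mul_of_nonneg_right a1 (by linarith : (0 : ℝ) ≤ C1)
    linarith
  have b2 : 200 * (c1 * kD * C1) ≤ u := by
    have a1 : c1 * kD * C1 ≤ c1 ^ 2 * kD * C1 := by gcongr
    linarith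
  have b3 : 200 * (c1 ^ 2 * kD) ≤ u := by
    have a1 : c1 ^ 2 * kD * 1 ≤ c1 ^ 2 * kD * C1 := by gcongr
    linarith
  have b4 : kD ≤ u := by
    have a1 : 1 * kD ≤ c1 ^ 2 * kD := by gcongr
    linarith
  -- the number Q
  have hQ1 : L * u * t ≤ N := by
    have a1 : (L * u * t) * C1 ≤ N * C1 := by
      calc (L * u * t) * C1 ≤ (L * u * t) * u := by gcongr
        _ = t * (L * (u * u)) := by ring
        _ = t * L ^ 2 := by rw [huL]; ring
        _ ≤ C * N := h2
        _ ≤ C1 * N := by gcongr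
        _ = N * C1 := by ring
    exact le_of_mul_le_mul_right a1 (by linarith)
  have hLut : 0 < L * u * t := by positivity
  obtain ⟨Q, hQd⟩ : ∃ Q : ℝ, Q = N / (L * u * t) := ⟨_, rfl⟩
  have hQone : 1 ≤ Q := by
    rw [hQd, le_div_iff₀ hLut]
    linarith
  have hQN : Q * t * (L * u) = N := by
    rw [hQd]
    field_simp
  obtain ⟨w, hwd⟩ : ∃ w : ℝ, w = Q ^ (((2 * e + 1 : ℕ) : ℝ)⁻¹) := ⟨_, rfl⟩
  have hw1 : 1 ≤ w := by
    rw [hwd]
    exact Real.one_le_rpow hQone (by positivity)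
  have hw0 : 0 < w := by linarith
  have hwQ : Q = w ^ (2 * e + 1) := by
    rw [hwd, Real.rpow_inv_natCast_pow (by linarith) (by omega)]
  have H1 := hyp1 ht1 hL1 hu1 hN0 hCC1 (by linarith) (by linarith) hQN hwd h1
  obtain ⟨c, R, E, d, hc, hcw, hRQ, hd, hrd, hdQ, hE, hEw⟩ := choice hw1 hwQ r
  obtain ⟨T, hT⟩ : ∃ T : ℝ, T = w ^ e := ⟨_, rfl⟩
  rw [← hT, ← hc1d] at hEw
  have hT1 : 1 ≤ T := by
    rw [hT]
    exact one_le_pow₀ hw1
  have hr0 : (0 : ℝ) ≤ r := Nat.cast_nonneg r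
  obtain ⟨f1, f2, f3, f4⟩ := reals (T := T) (d := (d : ℝ)) hw1 hT hwQ huL hL1 htL hQN hr0 hc1
    hC1 hkD1 hM huM H1 hdQ
  have hQT : Q = T * T * w := by
    rw [hwQ, hT]
    ring
  have hd1 : (1 : ℝ) ≤ d := by exact_mod_cast hd
  have hc1' : (1 : ℝ) ≤ c := by exact_mod_cast hc
  have hE0 : 1 ≤ E := by
    by_contra hcon
    have : E = 0 := by omega
    subst this
    omega
  have hE1 : (1 : ℝ) ≤ E := by exact_mod_cast hE0
  have hkap : (kap n : ℝ) ≤ 10 * L := by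
    have : (kap n : ℝ) = 4 * (ll n : ℝ) + 6 := by
      unfold kap
      push_cast
      ring
    linarith
  have hkap0 : (0 : ℝ) ≤ kap n := Nat.cast_nonneg _
  have hkK0 : ((b : ℝ) + 1) * (K * ((e + 1 : ℕ) : ℝ)) ≤ L * kd := by
    rw [← hkd]
    gcongr
  have hkK : ((b : ℝ) + 1) * (K * ((e + 1 : ℕ) : ℝ)) + kap n ≤ 11 * (L * kd) := by
    have : 1 * L ≤ kd * L := by gcongr
    linarith
  have hkK1 : ((b : ℝ) + 1) * (K * ((e + 1 : ℕ) : ℝ)) + 1 ≤ 11 * (kd * L) := by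
    have : 1 ≤ kd * L := one_le_mul_of_one_le_of_one_le hkd1 hL1
    linarith
  have hcD : ((3 : ℝ) * c) ^ (e + 1) ≤ th * (T * w) := by
    calc ((3 : ℝ) * c) ^ (e + 1) = th * (c : ℝ) ^ (e + 1) := by rw [mul_pow, hth]
      _ ≤ th * w ^ (e + 1) := by gcongr
      _ = th * (T * w) := by
          rw [hT]
          ring
  have hTwQ : T * w ≤ Q := by
    rw [hQT]
    have : 0 < T * w := by positivity
    nlinarith
  have hsZ : s + a ≤ ZL n := by
    refine hZ (s + a) ?_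
    rw [le_div_iff₀ (by positivity)]
    push_cast
    have ha0 : (0 : ℝ) ≤ a := Nat.cast_nonneg a
    calc ((s : ℝ) + a) * (ll n : ℝ) ^ 2 ≤ ((s : ℝ) + a) * L ^ 2 := by gcongr
      _ = (s : ℝ) * L ^ 2 + a * L ^ 2 := by ring
      _ ≤ t * L ^ 2 + a * L ^ 2 := by
          gcongr
          linarith
      _ ≤ C * N + C * N := add_le_add h2 h3
      _ ≤ C1 * N + C1 * N := by gcongr
      _ = 2 * C1 * N := by ring
  have hnat : ∀ X : ℕ, (X : ℝ) ≤ N → X ≤ n + 1 := by
    intro X hX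
    rw [hN] at hX
    exact_mod_cast hX
  have hdT : (d : ℝ) ≤ d * T := le_mul_of_one_le_right (by linarith) hT1
  -- (7)
  have g7 : (3 * c) ^ (e + 1) ≤ 4 * (n + 1) := by
    have a1 : (((3 * c) ^ (e + 1) : ℕ) : ℝ) ≤ N := by
      refine fin1 (B := th) (Y := Q) (A := 1) 0 (by norm_num) hu1 hN0.le (by linarith) ?_
        (by linarith) (by linarith)
      push_cast
      calc ((3 : ℝ) * c) ^ (e + 1) ≤ th * (T * w) := hcD
        _ ≤ th * Q := by gcongr
        _ = _ := by ring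
    have := hnat _ a1
    omega
  have g8 : K * (3 * c) ^ (e + 1) ≤ (E * E - (1 + R)) * (c * K) := by
    have a1 : 3 ^ (e + 1) * c ^ e ≤ E * E - (1 + R) := by omega
    calc K * (3 * c) ^ (e + 1) = (3 ^ (e + 1) * c ^ e) * (c * K) := by
          rw [mul_pow]
          ring
      _ ≤ _ := Nat.mul_le_mul_right _ a1
  have hqT : ∀ X : ℕ, (X : ℝ) * L ≤ N → X ≤ 4 * qT n := by
    intro X hX
    refine le_qT ?_
    rw [← hN]
    have hX0 : (0 : ℝ) ≤ X := Nat.cast_nonneg X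
    calc (X : ℝ) * (ll n : ℝ) ≤ (X : ℝ) * L := by gcongr
      _ ≤ N := hX
      _ ≤ 4 * N := by linarith
  have g9 : E * ((s + 1 + (b + 1) * (K * (e + 1)) + kap n + c * (K * (s + 2))) * E) +
      E * (s + 1 + (b + 1) * (K * (e + 1)) + kap n + K * (3 * c) ^ (e + 1) * (s + 2)) ≤
        4 * qT n := by
    refine hqT _ ?_
    push_cast
    have hkK' : ((b : ℝ) + 1) * (K * ((e : ℝ) + 1)) + kap n ≤ 11 * (L * kd) := by
      have := hkK
      push_cast at this
      exact this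
    have hwt : t ≤ kd * w * t := by
      have : 1 ≤ kd * w := one_le_mul_of_one_le_of_one_le hkd1 hw1
      exact le_mul_of_one_le_left (by linarith) this
    have hwt2 : L * kd ≤ kd * w * t := by
      calc L * kd ≤ t * kd := by gcongr
        _ = kd * 1 * t := by ring
        _ ≤ kd * w * t := by gcongr
    have a1 : (s : ℝ) + 1 + ((b : ℝ) + 1) * (K * ((e : ℝ) + 1)) + kap n + c * (K * (s + 2)) ≤
        13 * (kd * w * t) := by
      have a2 : (c : ℝ) * (K * (s + 2)) ≤ kd * w * t := by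
        calc (c : ℝ) * (K * (s + 2)) ≤ w * (kd * t) := by gcongr
          _ = _ := by ring
      linarith
    have a3 : (s : ℝ) + 1 + ((b : ℝ) + 1) * (K * ((e : ℝ) + 1)) + kap n +
        K * (3 * (c : ℝ)) ^ (e + 1) * (s + 2) ≤ 13 * (kD * (T * w) * t) := by
      have a4 : kd * w * t ≤ kD * (T * w) * t := by
        calc kd * w * t ≤ kD * (1 * w) * t := by
              rw [one_mul]
              gcongr
          _ ≤ _ := by gcongr
      have a5 : (K : ℝ) * (3 * (c : ℝ)) ^ (e + 1) * (s + 2) ≤ kD * (T * w) * t := by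
        calc (K : ℝ) * (3 * (c : ℝ)) ^ (e + 1) * (s + 2) ≤ kd * (th * (T * w)) * t := by gcongr
          _ = _ := by
              rw [hkD]
              ring
      linarith
    have a6 : ((E : ℝ) * (((s : ℝ) + 1 + ((b : ℝ) + 1) * (K * ((e : ℝ) + 1)) + kap n +
          c * (K * (s + 2))) * E) +
        E * ((s : ℝ) + 1 + ((b : ℝ) + 1) * (K * ((e : ℝ) + 1)) + kap n +
          K * (3 * (c : ℝ)) ^ (e + 1) * (s + 2))) ≤
        78 * (c1 ^ 2 * kD) * (Q * t) := by
      have hEE : (0 : ℝ) ≤ E := by linarith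
      calc _ ≤ (2 * c1 * T) * ((13 * (kd * w * t)) * (2 * c1 * T)) +
            (2 * c1 * T) * (13 * (kD * (T * w) * t)) := by gcongr
        _ = 52 * (c1 ^ 2 * kd) * (T * T * w * t) + 26 * (c1 * kD) * (T * T * w * t) := by ring
        _ ≤ 52 * (c1 ^ 2 * kD) * (T * T * w * t) + 26 * (c1 ^ 2 * kD) * (T * T * w * t) := by
            gcongr
        _ = _ := by
            rw [hQT]
            ring
    have a7 : (78 * (c1 ^ 2 * kD) * (Q * t)) * L ≤ N := by
      have a8 : ((78 * (c1 ^ 2 * kD) * (Q * t)) * L) * u ≤ N * u := by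
        calc ((78 * (c1 ^ 2 * kD) * (Q * t)) * L) * u = 78 * (c1 ^ 2 * kD) * (Q * t * (L * u)) := by
              ring
          _ = 78 * (c1 ^ 2 * kD) * N := by rw [hQN]
          _ ≤ u * N := by
              have : 78 * (c1 ^ 2 * kD) ≤ u := by
                have : 0 ≤ c1 ^ 2 * kD := by positivity
                linarith
              gcongr
          _ = _ := by ring
      exact le_of_mul_le_mul_right a8 hu0
    have a9 : (0 : ℝ) ≤ L := by linarith
    calc _ ≤ (78 * (c1 ^ 2 * kD) * (Q * t)) * L := mul_le_mul_of_nonneg_right a6 a9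
      _ ≤ N := a7
  have g10 : d * (E + 2) ≤ 4 * qT n := by
    refine hqT _ ?_
    push_cast
    have a1 : (d : ℝ) * (E + 2) * L ≤ N := by
      refine fin1 (B := 6 * c1) (Y := (d : ℝ) * T) (A := 3 * C1) 2 (by norm_num) hu1 hN0.le
        (by linarith) ?_ f1 ?_
      · calc (d : ℝ) * (E + 2) * L ≤ (d : ℝ) * (3 * (2 * c1 * T)) * L := by
              gcongr
              linarith
          _ = _ := by
              rw [← huL]
              ring
      · have a2 : c1 * 1 * C1 ≤ c1 * kD * C1 := by gcongr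
        linarith
    linarith
  have g11 : (d + 1) * ((b + 1) * (K * (e + 1)) + 1) ≤ 4 * qT n := by
    refine hqT _ ?_
    have a1 : (((d + 1) * ((b + 1) * (K * (e + 1)) + 1) : ℕ) : ℝ) * L ≤ N := by
      refine fin1 (B := 22 * kd) (Y := (d : ℝ) * T) (A := 3 * C1) 4 (by norm_num) hu1 hN0.le
        (by linarith) ?_ f1 ?_
      · rw [Nat.cast_mul, Nat.cast_add, Nat.cast_add, Nat.cast_mul, Nat.cast_mul, Nat.cast_add b,
          Nat.cast_one]
        calc ((d : ℝ) + 1) * (((b : ℝ) + 1) * (K * ((e + 1 : ℕ) : ℝ)) + 1) * L ≤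
              (2 * (d * T)) * (11 * (kd * L)) * L := by
              have : (d : ℝ) + 1 ≤ 2 * (d * T) := by linarith
              gcongr
          _ = _ := by
              rw [← huL]
              ring
      · have a2 : 1 * kd * C1 ≤ c1 * kD * C1 := by gcongr
        linarith
    linarith
  have g12 : (d + 1) * (((b + 1) * (K * (e + 1)) + 1) * E) ≤ 4 * (n + 1) := by
    have a1 : (((d + 1) * (((b + 1) * (K * (e + 1)) + 1) * E) : ℕ) : ℝ) ≤ N := by
      refine fin1 (B := 44 * (c1 * kd)) (Y := (d : ℝ) * T) (A := 3 * C1) 2 (by norm_num) hu1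
        hN0.le (by positivity) ?_ f1 ?_
      · rw [Nat.cast_mul, Nat.cast_mul, Nat.cast_add, Nat.cast_add, Nat.cast_mul, Nat.cast_mul,
          Nat.cast_add b, Nat.cast_one]
        calc ((d : ℝ) + 1) * ((((b : ℝ) + 1) * (K * ((e + 1 : ℕ) : ℝ)) + 1) * E) ≤
              (2 * d) * ((11 * (kd * L)) * (2 * c1 * T)) := by
              have : (d : ℝ) + 1 ≤ 2 * d := by linarith
              gcongr
          _ = _ := by
              rw [← huL]
              ring
      · have a2 : c1 * kd * C1 ≤ c1 * kD * C1 := by gcongr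
        linarith
    have := hnat _ a1
    omega
  have hgd : gw n (e + 1) K s b c R E E d a ≠ 0 :=
    gw_ne hc hE0 hE0 hK hD hsZ (by omega) g7 g8 g9 g10 g11 g12
  have hZn := Pool.Agent.Helper28.Long.ZL_le n
  refine ⟨c, R, E, E, d, hgd, hrd, by omega, ?_, ?_, ?_, ?_, ?_, ?_, by omega⟩
  · have a1 : (b : ℝ) ≤ N := by
      have a2 : 1 ≤ u * t := one_le_mul_of_one_le_of_one_le hu1 ht1
      have a3 : L ≤ L * u * t := by
        rw [mul_assoc]
        exact le_mul_of_one_le_right (by linarith) a2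
      linarith
    have := hnat _ a1
    omega
  · have a1 : (c : ℝ) ≤ N := by
      refine fin1 (B := 1) (Y := Q) (A := 1) 0 (by norm_num) hu1 hN0.le (by norm_num) ?_
        (by linarith) (by linarith)
      calc (c : ℝ) ≤ w := hcw
        _ ≤ T * w := le_mul_of_one_le_left hw0.le hT1
        _ ≤ Q := hTwQ
        _ = _ := by ring
    have := hnat _ a1
    omega
  · have a1 : (R : ℝ) ≤ N := by
      refine fin1 (B := 1) (Y := Q) (A := 1) 0 (by norm_num) hu1 hN0.le (by norm_num) ?_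
        (by linarith) (by linarith)
      calc (R : ℝ) ≤ Q := hRQ
        _ = _ := by ring
    have := hnat _ a1
    omega
  · have a1 : (E : ℝ) ≤ N := by
      refine fin1 (B := 2 * c1) (Y := T) (A := 1) 0 (by norm_num) hu1 hN0.le (by linarith) ?_
        (by linarith) ?_
      · calc (E : ℝ) ≤ 2 * c1 * T := hEw
          _ = _ := by ring
      · have a2 : c1 * 1 * 1 ≤ c1 * kD * C1 := by gcongr
        linarith
    have := hnat _ a1
    omega
  · have a1 : (E : ℝ) ≤ N := by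
      refine fin1 (B := 2 * c1) (Y := T) (A := 1) 0 (by norm_num) hu1 hN0.le (by linarith) ?_
        (by linarith) ?_
      · calc (E : ℝ) ≤ 2 * c1 * T := hEw
          _ = _ := by ring
      · have a2 : c1 * 1 * 1 ≤ c1 * kD * C1 := by gcongr
        linarith
    have := hnat _ a1
    omega
  · have a1 : (d : ℝ) ≤ N := by
      refine fin1 (B := 1) (Y := (d : ℝ) * T) (A := 3 * C1) 0 (by norm_num) hu1 hN0.le
        (by norm_num) ?_ f1 ?_
      · calc (d : ℝ) ≤ d * T := hdT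
          _ = _ := by ring
      · have a2 : 1 * 1 * C1 ≤ c1 * kD * C1 := by gcongr
        linarith
    have := hnat _ a1
    omega

end Pool.Agent.Helper39.MHS
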